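import Mathlib
import Pool.Agent.H25.Grid7

/-!
# MP_6e13ab_co: the grid Ramsey number, a power saving in the trivial upper bound

`G(r)` is the least `n ≥ 1` such that every `r`-colouring of the edges of the `n × n` grid graph
has an alternating rectangle.  We prove `G(r) ≤ 861 * r ^ (binom (r + 1) 2 - 1 / 3)` for all
`r ≥ 1`, so that `G(r) / r ^ (binom (r + 1) 2) → 0`.
-/

set_option autoImplicit false

open Filter

namespace Pool.Agent.Results.MP_6e13ab_co.PowerSaving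

/-- The grid graph on `[m] × [n]`: two distinct vertices `(i, j)` and `(i', j')` are adjacent
exactly when `i = i'` or `j = j'`. -/
def grid (m n : ℕ) : SimpleGraph (Fin m × Fin n) where
  Adj x y := x ≠ y ∧ (x.1 = y.1 ∨ x.2 = y.2)
  symm := ⟨fun _ _ h => ⟨h.1.symm, h.2.imp Eq.symm Eq.symm⟩⟩
  loopless := ⟨fun _ h => h.1 rfl⟩

/-- The rectangle with corners `(i, j)`, `(i', j)`, `(i, j')`, `(i', j')` is alternating under
the edge colouring `c`: its sides are edges and opposite sides have equal colours. -/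
def Alternating {m n r : ℕ} (c : (grid m n).edgeSet → Fin r) (i i' : Fin m) (j j' : Fin n) :
    Prop :=
  ∃ (h₁ : s((i, j), (i', j)) ∈ (grid m n).edgeSet)
    (h₂ : s((i, j'), (i', j')) ∈ (grid m n).edgeSet)
    (h₃ : s((i, j), (i, j')) ∈ (grid m n).edgeSet)
    (h₄ : s((i', j), (i', j')) ∈ (grid m n).edgeSet),
    c ⟨_, h₁⟩ = c ⟨_, h₂⟩ ∧ c ⟨_, h₃⟩ = c ⟨_, h₄⟩

/-- Every `r`-colouring of the edges of the `n × n` grid graph has an alternating rectangle. -/
def Forces (r n : ℕ) : Prop :=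
  ∀ c : (grid n n).edgeSet → Fin r,
    ∃ i i' j j' : Fin n, i < i' ∧ j < j' ∧ Alternating c i i' j j'

private theorem mem_vert {m n : ℕ} {i i' : Fin m} (j : Fin n) (h : i ≠ i') :
    s((i, j), (i', j)) ∈ (grid m n).edgeSet := by
  rw [SimpleGraph.mem_edgeSet]
  exact ⟨fun h' => h (congrArg Prod.fst h'), Or.inr rfl⟩

private theorem mem_hor {m n : ℕ} (i : Fin m) {j j' : Fin n} (h : j ≠ j') :
    s((i, j), (i, j')) ∈ (grid m n).edgeSet := by
  rw [SimpleGraph.mem_edgeSet]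
  exact ⟨fun h' => h (congrArg Prod.snd h'), Or.inl rfl⟩

/-- The pigeonhole bound. -/
private theorem forces_aux (r N : ℕ) (hr : 1 ≤ r) (hN : r ^ ((r + 1).choose 2) < N) :
    Forces r N := by
  classical
  intro c
  have hrN : r + 1 ≤ N := by
    have h1 : r ^ 1 ≤ r ^ ((r + 1).choose 2) := by
      apply Nat.pow_le_pow_right hr
      have : (2 : ℕ).choose 2 ≤ (r + 1).choose 2 := Nat.choose_le_choose 2 (by omega)
      simpa using this
    rw [pow_one] at h1
    omega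
  let e : Fin (r + 1) ↪ Fin N := Fin.castLEEmb hrN
  let D : Type := {z : Sym2 (Fin (r + 1)) // ¬ z.IsDiag}
  have hmem : ∀ (j : Fin N) (z : D), Sym2.map (fun i => (e i, j)) z.1 ∈ (grid N N).edgeSet := by
    rintro j ⟨z, hz⟩
    induction z using Sym2.ind with
    | _ x y =>
      rw [Sym2.map_mk]
      exact mem_vert j (fun h => hz (Sym2.mk_isDiag_iff.2 (e.injective h)))
  let f : Fin N → (D → Fin r) := fun j z => c ⟨_, hmem j z⟩
  have hcard : Fintype.card (D → Fin r) < Fintype.card (Fin N) := by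
    rw [Fintype.card_fun, Fintype.card_fin, Fintype.card_fin, Sym2.card_subtype_not_diag,
      Fintype.card_fin]
    exact hN
  obtain ⟨j₁, j₂, hj, hf⟩ := Fintype.exists_ne_map_eq_of_card_lt f hcard
  have hcol : ∀ x y : Fin (r + 1), ∀ hxy : e x ≠ e y,
      c ⟨_, mem_vert j₁ hxy⟩ = c ⟨_, mem_vert j₂ hxy⟩ := by
    intro x y hxy
    have hd : ¬ (s(x, y) : Sym2 (Fin (r + 1))).IsDiag := fun h =>
      hxy (congrArg e (Sym2.mk_isDiag_iff.1 h))
    exact congrFun hf (⟨s(x, y), hd⟩ : D)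
  obtain ⟨x, y, hxy, hg⟩ := Fintype.exists_ne_map_eq_of_card_lt
    (fun x : Fin (r + 1) => c ⟨_, mem_hor (e x) hj⟩) (by simp)
  clear hcard hf
  wlog hlt : j₁ < j₂ generalizing j₁ j₂ with H
  · refine H j₂ j₁ hj.symm (fun x y hxy => (hcol x y hxy).symm) ?_
      (lt_of_le_of_ne (not_lt.1 hlt) hj.symm)
    have h1 : ∀ z : Fin (r + 1), (⟨_, mem_hor (e z) hj.symm⟩ : (grid N N).edgeSet) =
        ⟨_, mem_hor (e z) hj⟩ := fun z => Subtype.ext Sym2.eq_swap
    show c ⟨_, mem_hor (e x) hj.symm⟩ = c ⟨_, mem_hor (e y) hj.symm⟩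
    rw [h1 x, h1 y]
    exact hg
  wlog hlt' : x < y generalizing x y with H
  · exact H y x hxy.symm hg.symm (lt_of_le_of_ne (not_lt.1 hlt') hxy.symm)
  have hne : e x ≠ e y := fun h => hxy (e.injective h)
  exact ⟨e x, e y, j₁, j₂, hlt', hlt, mem_vert j₁ hne, mem_vert j₂ hne, mem_hor (e x) hj,
    mem_hor (e y) hj, hcol x y hne, hg⟩

private theorem forces_trivial (r : ℕ) (hr : 1 ≤ r) : Forces r (r ^ ((r + 1).choose 2) + 1) :=
  forces_aux r _ hr (Nat.lt_succ_self _)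

/-- The bound of `Grid7` in terms of the grid graph. -/
private theorem bound_of_not_forces (r n b : ℕ) (hb : 0 < b) (hr1 : 4 * b ≤ r)
    (hr2 : 128 * b ^ 3 ≤ r) (hn : 0 < n) (hno : ¬ Forces r n) :
    (n : ℝ) ≤ ((r : ℝ) + 1) ^ 3 +
      4 * (r : ℝ) ^ ((r + 1).choose 2) / (1 + 3 * (b : ℝ) / 128) := by
  classical
  unfold Forces at hno
  push Not at hno
  obtain ⟨c, hc⟩ := hno
  have hrpos : 0 < r := by omega
  let h : Fin n → Fin n → Fin n → Fin r := fun i j j' =>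
    if hj : j ≠ j' then c ⟨_, mem_hor i hj⟩ else ⟨0, hrpos⟩
  let v : Fin n → Fin n → Fin n → Fin r := fun j i i' =>
    if hi : i ≠ i' then c ⟨_, mem_vert j hi⟩ else ⟨0, hrpos⟩
  refine Pool.Agent.H25.grid_bound r n b hb hr1 hr2 hn h v ?_
  intro i i' j j' hi hj hh
  apply hc i i' j j' hi hj
  have hi' : i ≠ i' := ne_of_lt hi
  have hj' : j ≠ j' := ne_of_lt hj
  obtain ⟨h1, h2⟩ := hh
  simp only [h, v, dif_pos hi', dif_pos hj'] at h1 h2
  exact ⟨mem_vert j hi', mem_vert j' hi', mem_hor i hj', mem_hor i' hj', h2, h1⟩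

private theorem exists_cube (r : ℕ) (hr : 128 ≤ r) :
    ∃ b : ℕ, 0 < b ∧ 128 * b ^ 3 ≤ r ∧ r < 128 * (b + 1) ^ 3 := by
  classical
  have hP : ∃ b : ℕ, r < 128 * (b + 1) ^ 3 := by
    refine ⟨r, ?_⟩
    have h1 : (r + 1) ^ 1 ≤ (r + 1) ^ 3 := Nat.pow_le_pow_right (by omega) (by omega)
    rw [pow_one] at h1
    omega
  refine ⟨Nat.find hP, ?_, ?_, Nat.find_spec hP⟩
  · rw [Nat.find_pos]
    omega
  · have hpos : 0 < Nat.find hP := by
      rw [Nat.find_pos]
      omega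
    have h := Nat.find_min hP (show Nat.find hP - 1 < Nat.find hP by omega)
    rw [Nat.sub_add_cancel hpos] at h
    omega

private theorem cast_bound (r g : ℕ) (hr : 1 ≤ r) (hg1 : g ≤ r ^ ((r + 1).choose 2) + 1)
    (hg2 : ∀ n, n + 1 = g → 0 < n → ¬ Forces r n) :
    (g : ℝ) ≤ 861 * (r : ℝ) ^ (((r + 1).choose 2 : ℝ) - 1 / 3) := by
  have hr0 : (0 : ℝ) < r := by exact_mod_cast hr
  have hr1 : (1 : ℝ) ≤ r := by exact_mod_cast hr
  set T : ℝ := (r : ℝ) ^ ((r + 1).choose 2) with hT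
  set ρ : ℝ := (r : ℝ) ^ (1 / 3 : ℝ) with hρ
  have hρ0 : 0 < ρ := Real.rpow_pos_of_pos hr0 _
  have hρ3 : ρ ^ 3 = r := by
    rw [hρ, ← Real.rpow_natCast, ← Real.rpow_mul hr0.le]
    norm_num
  have hρr : ρ ≤ r := by
    rw [hρ]
    calc (r : ℝ) ^ (1 / 3 : ℝ) ≤ (r : ℝ) ^ (1 : ℝ) :=
          Real.rpow_le_rpow_of_exponent_le hr1 (by norm_num)
      _ = r := Real.rpow_one _
  have hT1 : 1 ≤ T := one_le_pow₀ hr1
  have hpow : (r : ℝ) ^ (((r + 1).choose 2 : ℝ) - 1 / 3) = T / ρ := by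
    rw [Real.rpow_sub hr0, Real.rpow_natCast]
  rw [hpow]
  rcases lt_or_ge r 128 with hlt | hge
  · have h1 : (g : ℝ) ≤ T + 1 := by
      rw [hT]
      exact_mod_cast hg1
    have h2 : ρ ≤ 400 := by
      by_contra hcon
      rw [not_le] at hcon
      have h3 : (400 : ℝ) ^ 3 < ρ ^ 3 := pow_lt_pow_left₀ hcon (by norm_num) (by norm_num)
      rw [hρ3] at h3
      have h4 : (r : ℝ) < 128 := by exact_mod_cast hlt
      norm_num at h3
      linarith
    have h5 : 2 * T ≤ 861 * (T / ρ) := by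
      rw [mul_div_assoc', le_div_iff₀ hρ0]
      nlinarith
    linarith
  · obtain ⟨b, hb, hb1, hb2⟩ := exists_cube r hge
    have hb3 : b ≤ b ^ 3 := Nat.le_self_pow (by norm_num) b
    have hρb : ρ ≤ 5.04 * ((b : ℝ) + 1) := by
      by_contra hcon
      rw [not_le] at hcon
      have h3 : (5.04 * ((b : ℝ) + 1)) ^ 3 < ρ ^ 3 :=
        pow_lt_pow_left₀ hcon (by positivity) (by norm_num)
      rw [hρ3, mul_pow] at h3
      have h4 : (r : ℝ) < 128 * ((b : ℝ) + 1) ^ 3 := by exact_mod_cast hb2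
      have h5 : (0 : ℝ) < ((b : ℝ) + 1) ^ 3 := by positivity
      norm_num at h3
      nlinarith
    have hden : (0 : ℝ) < 1 + 3 * (b : ℝ) / 128 := by positivity
    have hmain : 4 * T / (1 + 3 * (b : ℝ) / 128) ≤ 860.16 * (T / ρ) := by
      rw [mul_div_assoc', div_le_div_iff₀ hden hρ0]
      have h1 : ρ ≤ 215.04 * (1 + 3 * (b : ℝ) / 128) := by
        have hb0 : (0 : ℝ) ≤ b := Nat.cast_nonneg b
        linarith
      nlinarith [mul_le_mul_of_nonneg_left h1 (le_trans zero_le_one hT1)]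
    have hr128 : (128 : ℝ) ≤ r := by exact_mod_cast hge
    have hTρ : (r : ℝ) ^ 5 ≤ T / ρ := by
      rw [le_div_iff₀ hρ0]
      have h1 : (r : ℝ) ^ 6 ≤ T := by
        rw [hT]
        apply pow_le_pow_right₀ hr1
        have : (4 : ℕ).choose 2 ≤ (r + 1).choose 2 := Nat.choose_le_choose 2 (by omega)
        simpa [Nat.choose] using this
      calc (r : ℝ) ^ 5 * ρ ≤ (r : ℝ) ^ 5 * r := by
            apply mul_le_mul_of_nonneg_left hρr (by positivity)
        _ = (r : ℝ) ^ 6 := by ring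
        _ ≤ T := h1
    have hpoly : ((r : ℝ) + 1) ^ 3 + 1 ≤ 0.84 * (r : ℝ) ^ 5 := by
      have h1 : ((r : ℝ) + 1) ^ 3 + 1 ≤ 9 * (r : ℝ) ^ 3 := by
        nlinarith [mul_pos hr0 hr0, mul_nonneg (sub_nonneg.2 hr128) (mul_pos hr0 hr0).le,
          mul_nonneg (sub_nonneg.2 hr128) hr0.le]
      have h2 : (16384 : ℝ) ≤ (r : ℝ) ^ 2 := by nlinarith
      have h3 : (0 : ℝ) < (r : ℝ) ^ 3 := by positivity
      have h4 : (r : ℝ) ^ 5 = (r : ℝ) ^ 2 * (r : ℝ) ^ 3 := by ring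
      rw [h4]
      nlinarith
    rcases Nat.eq_zero_or_pos g with h0 | hpos
    · rw [h0]
      have : 0 ≤ T / ρ := by positivity
      push_cast
      linarith
    · obtain ⟨n, hn⟩ : ∃ n, n + 1 = g := ⟨g - 1, by omega⟩
      rcases Nat.eq_zero_or_pos n with hn0 | hnpos
      · have hg : (g : ℝ) = 1 := by rw [← hn, hn0]; norm_num
        rw [hg]
        have h6 : (1 : ℝ) ≤ ((r : ℝ) + 1) ^ 3 + 1 := by
          have : (0 : ℝ) ≤ ((r : ℝ) + 1) ^ 3 := by positivity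
          linarith
        linarith
      · have h7 := bound_of_not_forces r n b hb (by omega) hb1 hnpos (hg2 n hn hnpos)
        rw [← hT] at h7
        have h8 : (g : ℝ) = n + 1 := by rw [← hn]; push_cast; ring
        rw [h8]
        linarith

/-- **A power saving for the grid Ramsey number.**  For every `r ≥ 1` let `G r` be the least
`n ≥ 1` such that every `r`-colouring of the edges of the `n × n` grid graph has an alternating
rectangle.  Then `G r ≤ 861 * r ^ (binom (r + 1) 2 - 1 / 3)` for all `r ≥ 1`, and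
`G r / r ^ (binom (r + 1) 2)` tends to `0`. -/
theorem result : ∃ G : ℕ → ℕ,
    (∀ r : ℕ, 1 ≤ r → IsLeast {n : ℕ | 1 ≤ n ∧ ∀ c : (grid n n).edgeSet → Fin r,
      ∃ i i' j j' : Fin n, i < i' ∧ j < j' ∧ Alternating c i i' j j'} (G r)) ∧
    (∀ r : ℕ, 1 ≤ r → (G r : ℝ) ≤ 861 * (r : ℝ) ^ (((r + 1).choose 2 : ℝ) - 1 / 3)) ∧
    Tendsto (fun r : ℕ => (G r : ℝ) / (r : ℝ) ^ ((r + 1).choose 2)) atTop (nhds 0) := by
  classical
  have hex : ∀ r : ℕ, 1 ≤ r → ∃ n : ℕ, 1 ≤ n ∧ Forces r n := fun r hr =>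
    ⟨_, Nat.le_add_left 1 _, forces_trivial r hr⟩
  let G : ℕ → ℕ := fun r => if hr : 1 ≤ r then Nat.find (hex r hr) else 0
  have hG : ∀ r (hr : 1 ≤ r), G r = Nat.find (hex r hr) := fun r hr => dif_pos hr
  have hb : ∀ r : ℕ, 1 ≤ r → (G r : ℝ) ≤ 861 * (r : ℝ) ^ (((r + 1).choose 2 : ℝ) - 1 / 3) := by
    intro r hr
    apply cast_bound r (G r) hr
    · rw [hG r hr]
      exact Nat.find_min' _ ⟨Nat.le_add_left 1 _, forces_trivial r hr⟩
    · intro n hn hnpos hF
      rw [hG r hr] at hn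
      exact Nat.find_min (hex r hr) (show n < Nat.find (hex r hr) by omega) ⟨hnpos, hF⟩
  refine ⟨G, ?_, hb, ?_⟩
  · intro r hr
    rw [hG r hr]
    exact ⟨Nat.find_spec (hex r hr), fun n hn => Nat.find_min' (hex r hr) hn⟩
  · have hlim : Tendsto (fun r : ℕ => 861 * (r : ℝ) ^ (-(1 / 3) : ℝ)) atTop (nhds 0) := by
      have h1 : Tendsto (fun r : ℕ => (r : ℝ) ^ (-(1 / 3) : ℝ)) atTop (nhds 0) :=
        (tendsto_rpow_neg_atTop (by norm_num)).comp tendsto_natCast_atTop_atTop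
      simpa using h1.const_mul 861
    refine squeeze_zero' (Eventually.of_forall fun r => by positivity) ?_ hlim
    filter_upwards [eventually_ge_atTop 1] with r hr
    have hr0 : (0 : ℝ) < r := by exact_mod_cast hr
    have hT : (0 : ℝ) < (r : ℝ) ^ ((r + 1).choose 2) := by positivity
    rw [div_le_iff₀ hT]
    refine (hb r hr).trans (le_of_eq ?_)
    rw [sub_eq_add_neg, Real.rpow_add hr0, Real.rpow_natCast]
    ring

end Pool.Agent.Results.MP_6e13ab_co.PowerSaving
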